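import Pool.Agent.H219_PCP.I

/-!
# The Post correspondence problem for free groups is undecidable
-/

set_option autoImplicit false

namespace Pool.Agent.Results.MP_d61eec_lc.Undecidable

open Pool.Agent.H219_PCP

/-- There are fixed ranks `n, m` such that no algorithm decides, for all pairs of injective
homomorphisms `φ, ψ : F_n → F_m` given by the reduced words of the images of the basis, whether
`φ x = ψ x` for some `x ≠ 1`. -/
theorem result : ∃ n m : ℕ,
    ¬ ∃ P : (Fin n → List (Fin m × Bool)) × (Fin n → List (Fin m × Bool)) → Prop,
      ComputablePred P ∧ ∀ p, (∀ i, FreeGroup.IsReduced (p.1 i)) → (∀ i, FreeGroup.IsReduced (p.2 i)) →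
        Function.Injective (toHom p.1) → Function.Injective (toHom p.2) →
        (P p ↔ ∃ x : FreeGroup (Fin n), x ≠ 1 ∧ toHom p.1 x = toHom p.2 x) :=
  main

end Pool.Agent.Results.MP_d61eec_lc.Undecidable
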